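import Pool.Agent.Y242.LW.Stm
import Pool.Agent.Helper240.ZFM.C1
import Pool.Agent.Helper240.ZFM.C2
import Pool.Agent.Helper240.ZFM.C4

/-!
# Riemann mapping theorem for bounded domains with connected complement (helper365)
-/

open Set Filter Topology Complex Metric

namespace Y365.LW

theorem hull {W : Set ℂ} (hWb : Bornology.IsBounded W) (hWc : IsConnected Wᶜ) :
    ∀ L ⊆ W, IsCompact L → ∃ L' ⊆ W, L ⊆ L' ∧ IsCompact L' ∧ IsConnected L'ᶜ := by
  intro L hLW hL
  obtain ⟨R, hR⟩ := hWb.subset_ball (0 : ℂ)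
  -- a radius with the bounded set in the ball
  set M : ℝ := max R 0 with hM
  have hM0 : 0 ≤ M := le_max_right _ _
  have hWM : W ⊆ ball (0 : ℂ) M := hR.trans (ball_subset_ball (le_max_left _ _))
  -- the exterior of the ball
  have hext : {z : ℂ | M < ‖z‖} ⊆ Wᶜ := by
    intro z hz hzW
    have h1 := hWM hzW
    rw [mem_ball_zero_iff] at h1
    exact lt_asymm h1 hz
  have hpt : ((M + 1 : ℝ) : ℂ) ∈ {z : ℂ | M < ‖z‖} := by
    show M < ‖((M + 1 : ℝ) : ℂ)‖
    rw [Complex.norm_real, Real.norm_of_nonneg (by linarith)]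
    linarith
  have hWL : Wᶜ ⊆ Lᶜ := compl_subset_compl.2 hLW
  set p : ℂ := ((M + 1 : ℝ) : ℂ) with hp
  have hpW : p ∈ Wᶜ := hext hpt
  have hpL : p ∈ Lᶜ := hWL hpW
  set O : Set ℂ := connectedComponentIn Lᶜ p with hO
  have hOopen : IsOpen O := hL.isClosed.isOpen_compl.connectedComponentIn
  have hOconn : IsConnected O := isConnected_connectedComponentIn_iff.2 hpL
  have hWO : Wᶜ ⊆ O := hWc.isPreconnected.subset_connectedComponentIn hpW hWL
  have hOL : O ⊆ Lᶜ := connectedComponentIn_subset _ _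
  have hO'W : Oᶜ ⊆ W := by
    intro z hz
    by_contra h
    exact hz (hWO h)
  refine ⟨Oᶜ, hO'W, ?_, ?_, ?_⟩
  · intro z hz hzO
    exact hOL hzO hz
  · exact Metric.isCompact_of_isClosed_isBounded hOopen.isClosed_compl (hWb.subset hO'W)
  · rw [compl_compl]
    exact hOconn

theorem rmt : LW242.S_RMT := by
  intro W hWo hWconn hWb hWc
  have hne : W ≠ univ := by
    rintro rfl
    have := hWc.nonempty
    simp at this
  obtain ⟨g, φ, h1, h2, -, -, -, -, -⟩ :=
    ZFM.riemann_prim hWo hWconn hne (ZFM.primitive_of_good hWo (hull hWb hWc))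
  exact ⟨g, h1, h2.injOn, h2.image_eq⟩

end Y365.LW
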